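import Pool.Agent.Helper22.RKI.St

/-!
Project RK (MP_b3ce06_al), part (i), module T3 (helper38): the third triangle.
-/

set_option autoImplicit false

namespace Pool.Agent.Helper38.RKI

open Pool.Agent.Helper22.RKI

variable {k : ℕ} {A : Type} [CommRing A] {G : Type} [Group G]

/-- conjugate of `p ρ` by `a` from a triangle -/
private theorem tri_conj (D : Fd k A G) {v l ρ : A} (m : ℤ) (h : D.Tri v l ρ ((k : ℤ) * m)) :
    D.a * D.p ρ * D.a⁻¹ = D.p (-l) * D.a * D.p v * D.Z ^ (-m) := by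
  have hz : D.Z ^ (-m) = D.a * D.Z ^ ((k : ℤ) * (-m)) * D.a⁻¹ := by
    rw [← D.Za]
    group
  unfold Fd.Tri at h
  rw [hz, D.pneg]
  calc D.a * D.p ρ * D.a⁻¹ = (D.p l)⁻¹ * (D.p l * D.a * D.p ρ * D.Z ^ ((k : ℤ) * m)) *
        D.Z ^ ((k : ℤ) * (-m)) * D.a⁻¹ := by
        group
    _ = (D.p l)⁻¹ * (D.a * D.p v * D.a) * D.Z ^ ((k : ℤ) * (-m)) * D.a⁻¹ := by
        rw [h]
    _ = _ := by
        group

theorem hT3 : StT3 := by
  intro hSC k A _ G _ D r c0 w hc0 h1 h2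
  -- units
  have hq : D.q = D.two * D.c := by
    unfold Fd.q Fd.c
    rw [← zpow_one_add]
    congr 1
    ring
  have hq1 : D.q ^ (1 - (k : ℤ)) = D.c ^ (-(k : ℤ)) := by
    unfold Fd.q Fd.c
    rw [← zpow_mul, ← zpow_mul]
    congr 1
    ring
  have hq2 : D.q ^ (2 - (k : ℤ)) = D.q * D.c ^ (-(k : ℤ)) := by
    rw [← hq1, ← zpow_one_add]
    congr 1
    ring
  have ht1 : D.two ^ (1 - (k : ℤ)) = D.c⁻¹ := by
    unfold Fd.c
    rw [← zpow_neg]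
    congr 1
    ring
  have ht2 : D.two ^ (2 - (k : ℤ)) = D.two * D.c⁻¹ := by
    rw [← ht1, ← zpow_one_add]
    congr 1
    ring
  have hqA : (D.q : A) = 2 * (D.c : A) := by
    rw [hq, Units.val_mul, D.htwo]
  have hci : (D.c : A) * ((D.c⁻¹ : Aˣ) : A) = 1 := Units.mul_inv D.c
  have hCC : ((D.c ^ (-(k : ℤ)) : Aˣ) : A) * ((D.c ^ (k : ℤ) : Aˣ) : A) = 1 := by
    rw [← Units.val_mul, ← zpow_add, neg_add_cancel, zpow_zero, Units.val_one]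
  set N : A := (D.q : A) - 1 with hN
  set ci : A := ((D.c⁻¹ : Aˣ) : A) with hcidef
  set C : A := ((D.c ^ (k : ℤ) : Aˣ) : A) with hCdef
  set Ci : A := ((D.c ^ (-(k : ℤ)) : Aˣ) : A) with hCidef
  -- the three conjugates
  have e1 : D.a * D.p (r * N ^ 2) * D.a⁻¹ = D.p (N * c0) * D.a * D.p w *
      D.Z ^ (-(2 * (k : ℤ) + 1)) := by
    have := tri_conj D (2 * (k : ℤ) + 1) h2
    rwa [neg_neg] at this
  have e2 : D.a * D.p (-(r * N)) * D.a⁻¹ = D.p (ci * N) * D.a * D.p (-(Ci * c0)) *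
      D.Z ^ (-((k : ℤ) + 1)) := by
    have h3 := hSC k A G D _ _ _ _ h1 (1 - (k : ℤ))
    rw [hq1, ht1, ← hcidef, ← hCidef] at h3
    have a1 : Ci * -c0 = -(Ci * c0) := by ring
    have a2 : Ci * -(r * N * C) = -(r * N) := by linear_combination (-(r * N)) * hCC
    have a3 : ci * -N = -(ci * N) := by ring
    have a4 : 2 * (k : ℤ) - (k : ℤ) * (1 - (k : ℤ)) = (k : ℤ) * ((k : ℤ) + 1) := by ring
    rw [a1, a2, a3, a4] at h3
    have := tri_conj D ((k : ℤ) + 1) h3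
    rwa [neg_neg] at this
  have e3 : D.a * D.p (-(r * N * (D.q : A))) * D.a⁻¹ = D.p (2 * ci * N) * D.a *
      D.p (-((D.q : A) * Ci * c0)) * D.Z ^ (-(k : ℤ)) := by
    have h3 := hSC k A G D _ _ _ _ h1 (2 - (k : ℤ))
    rw [hq2, ht2, Units.val_mul, Units.val_mul, D.htwo, ← hcidef, ← hCidef] at h3
    have a1 : (D.q : A) * Ci * -c0 = -((D.q : A) * Ci * c0) := by ring
    have a2 : (D.q : A) * Ci * -(r * N * C) = -(r * N * (D.q : A)) := by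
      linear_combination (-(r * N * (D.q : A))) * hCC
    have a3 : 2 * ci * -N = -(2 * ci * N) := by ring
    have a4 : 2 * (k : ℤ) - (k : ℤ) * (2 - (k : ℤ)) = (k : ℤ) * (k : ℤ) := by ring
    rw [a1, a2, a3, a4] at h3
    have := tri_conj D (k : ℤ) h3
    rwa [neg_neg] at this
  have e4 : D.p (r * N ^ 2) = D.p (-(r * N)) * (D.p (-(r * N * (D.q : A))))⁻¹ := by
    rw [← D.pneg, ← D.p_add]
    congr 1
    rw [hN]
    ring
  have e5 : D.Z ^ (-1 : ℤ) * D.p ((D.q : A) * Ci * c0) = D.p (2 * (Ci * c0)) * D.Z ^ (-1 : ℤ) := by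
    rw [D.Zp]
    congr 2
    rw [zpow_neg_one, ← hcidef, hqA]
    linear_combination (2 * Ci * c0) * hci
  have e6 : D.p (N * c0) * D.a * D.p w * D.Z ^ (-(2 * (k : ℤ) + 1)) =
      D.p (ci * N) * D.a * D.p (Ci * c0) * D.Z ^ (-1 : ℤ) * D.a⁻¹ * (D.p (2 * ci * N))⁻¹ := by
    have s1 : D.p (-(Ci * c0)) * D.p (2 * (Ci * c0)) = D.p (Ci * c0) := by
      rw [← D.p_add]
      congr 1
      ring
    calc D.p (N * c0) * D.a * D.p w * D.Z ^ (-(2 * (k : ℤ) + 1))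
        = D.a * D.p (r * N ^ 2) * D.a⁻¹ := e1.symm
      _ = (D.a * D.p (-(r * N)) * D.a⁻¹) * (D.a * D.p (-(r * N * (D.q : A))) * D.a⁻¹)⁻¹ := by
          rw [e4]
          group
      _ = (D.p (ci * N) * D.a * D.p (-(Ci * c0)) * D.Z ^ (-((k : ℤ) + 1))) *
          (D.p (2 * ci * N) * D.a * D.p (-((D.q : A) * Ci * c0)) * D.Z ^ (-(k : ℤ)))⁻¹ := by
          rw [e2, e3]
      _ = D.p (ci * N) * D.a * D.p (-(Ci * c0)) * (D.Z ^ (-1 : ℤ) *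
          (D.p (-((D.q : A) * Ci * c0)))⁻¹) * D.a⁻¹ * (D.p (2 * ci * N))⁻¹ := by
          group
      _ = D.p (ci * N) * D.a * D.p (-(Ci * c0)) * (D.p (2 * (Ci * c0)) * D.Z ^ (-1 : ℤ)) *
          D.a⁻¹ * (D.p (2 * ci * N))⁻¹ := by
          rw [← D.pneg, neg_neg, e5]
      _ = D.p (ci * N) * D.a * (D.p (-(Ci * c0)) * D.p (2 * (Ci * c0))) * D.Z ^ (-1 : ℤ) *
          D.a⁻¹ * (D.p (2 * ci * N))⁻¹ := by
          simp only [mul_assoc]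
      _ = _ := by
          rw [s1]
  have e7 : D.p (2 * N * ((D.c ^ (-(2 * (k : ℤ)) - 2) : Aˣ) : A)) =
      D.Z ^ (-(2 * (k : ℤ) + 1)) * D.p (2 * ci * N) * D.Z ^ (2 * (k : ℤ) + 1) := by
    have s1 : ((D.c ^ (-(2 * (k : ℤ) + 1)) : Aˣ) : A) * ci =
        ((D.c ^ (-(2 * (k : ℤ)) - 2) : Aˣ) : A) := by
      rw [hcidef, ← Units.val_mul, ← zpow_sub_one]
      congr 2
      ring
    have s2 : 2 * N * ((D.c ^ (-(2 * (k : ℤ)) - 2) : Aˣ) : A) =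
        ((D.c ^ (-(2 * (k : ℤ) + 1)) : Aˣ) : A) * (2 * ci * N) := by
      rw [← s1]
      ring
    rw [s2, D.Zp]
    group
  have e8 : D.Z ^ (2 * (k : ℤ) + 1) * D.a = D.a * D.Z ^ ((k : ℤ) * (2 * (k : ℤ) + 1)) := D.Za _
  unfold Fd.Tri
  have e9 : D.p (-(r * N)) = (D.p (N * c0))⁻¹ * D.p (ci * N) := by
    rw [← D.pneg, ← D.p_add]
    congr 1
    rw [hc0]
    ring
  rw [D.p_add, e7, e9]
  calc D.a * (D.p w * (D.Z ^ (-(2 * (k : ℤ) + 1)) * D.p (2 * ci * N) * D.Z ^ (2 * (k : ℤ) + 1))) *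
        D.a
      = (D.p (N * c0))⁻¹ * (D.p (N * c0) * D.a * D.p w * D.Z ^ (-(2 * (k : ℤ) + 1))) *
        D.p (2 * ci * N) * (D.Z ^ (2 * (k : ℤ) + 1) * D.a) := by
        group
    _ = (D.p (N * c0))⁻¹ * (D.p (ci * N) * D.a * D.p (Ci * c0) * D.Z ^ (-1 : ℤ) * D.a⁻¹ *
        (D.p (2 * ci * N))⁻¹) * D.p (2 * ci * N) *
        (D.a * D.Z ^ ((k : ℤ) * (2 * (k : ℤ) + 1))) := by
        rw [e6, e8]
    _ = (D.p (N * c0))⁻¹ * D.p (ci * N) * D.a * D.p (c0 * Ci) *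
        D.Z ^ (2 * (k : ℤ) ^ 2 + (k : ℤ) - 1) := by
        rw [mul_comm c0 Ci]
        group

end Pool.Agent.Helper38.RKI
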